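import Pool.Agent.Helper78.Ep.Goals

/-!
# LINE: the interpolation lines of the multilinear extensions (itinerary machines)
-/

namespace Pool.Agent.Helper26.Ep

open Pool.Agent.Helper65.LinSpace Pool.Agent.Helper28.Ram Finset

theorem line_aux {p : ℕ} [Fact p.Prime] (m : Pool.Agent.Helper78.Ep.Mach) {N : ℕ} (hN : N < p - 1)
    (F : ℕ → ℕ) (q i : ℕ) (X V D : ℕ → ZMod p) :
    ∑ w ∈ range (p - 1), fhat p N F q
      (m.vars p i (fun j => ((w + 1 : ℕ) : ZMod p) * X j + V j) D) =
      -fhat p N F q (m.vars p i V D) := by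
  have h1 := fhat_sum p hN F q (fun j => if j < i * m.wn then X j else 0) (m.vars p i V D)
  rw [← h1]
  refine sum_congr rfl fun w _ => ?_
  congr 1
  funext j
  unfold Pool.Agent.Helper78.Ep.Mach.vars
  by_cases hj : j < i * m.wn
  · simp only [hj, if_true]
  · simp only [hj, if_false, mul_zero, zero_add]

theorem LINE : Pool.Agent.Helper78.Ep.LINE_stmt := by
  intro m p _ hp k i u X V o hi
  unfold Pool.Agent.Helper78.Ep.Mach.P
  by_cases hiG : i < m.G
  · simp only [hiG, if_true]
    rw [sum_comm, ← sum_neg_distrib]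
    refine sum_congr rfl fun π _ => ?_
    refine line_aux m (lt_of_le_of_lt ?_ hp) _ _ _ _ _ _
    exact Nat.add_le_add (Nat.mul_le_mul_right _ hiG.le) (Nat.mul_le_mul_right _ (Nat.le_succ _))
  · simp only [hiG, if_false]
    refine line_aux m (lt_of_le_of_lt ?_ hp) _ _ _ _ _ _
    exact Nat.add_le_add_left (Nat.le_mul_of_pos_left _ (Nat.succ_pos _)) _

end Pool.Agent.Helper26.Ep
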